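import Pool.Agent.N490.FG.Main

/-!
# `F_4(X)` is a `k_R`-space
-/

set_option autoImplicit false

open Set Filter Topology

namespace Pool.Agent.N490.FG

universe u

/-- The topology of the free topological group on `X`: the finest group topology on the free group for which
the inclusion of the generators is continuous. -/
@[reducible] def freeTop (X : Type u) [τ : TopologicalSpace X] : TopologicalSpace (FreeGroup X) :=
  (sInf {t : GroupTopology (FreeGroup X) |
    @Continuous X (FreeGroup X) τ t.toTopologicalSpace FreeGroup.of}).toTopologicalSpace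

/-- `F_n(X)`: the elements of the free group on `X` of reduced length at most `n`. -/
def FLevel (n : ℕ) (X : Type u) : Type u :=
  {w : FreeGroup X // ∃ L : List (X × Bool), L.length ≤ n ∧ FreeGroup.mk L = w}

/-- `F_n(X)` has the subspace topology of the free topological group on `X`. -/
instance (n : ℕ) (X : Type u) [TopologicalSpace X] : TopologicalSpace (FLevel n X) :=
  TopologicalSpace.induced Subtype.val (freeTop X)

/-- A `k_R`-space is a Tychonoff space on which every real function is continuous as soon as its
restrictions to the compact subsets are continuous. -/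
structure IsKR (Y : Type u) [TopologicalSpace Y] : Prop where
  t35 : T35Space Y
  cont : ∀ f : Y → ℝ, (∀ K : Set Y, IsCompact K → ContinuousOn f K) → Continuous f

theorem nc_nil_of_sep {X : Type u} {ρ : X → X → ℝ} (hρ : PM ρ) {L : List (X × Bool)} {c : ℝ} (h : NC ρ L c)
    (hs : Sep ρ L c) : L = [] := by
  cases h with
  | nil => rfl
  | step u v x y b c h =>
    have h1 := hs u v x y b rfl
    have h2 := h.cost_nonneg hρ
    linarith

section metric
variable {X : Type u} [MetricSpace X]

theorem t2_freeTop : @T2Space (FreeGroup X) (freeTop X) := by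
  classical
  let _ : TopologicalSpace (FreeGroup X) := (FT X).toTopologicalSpace
  have _ : IsTopologicalGroup (FreeGroup X) := (FT X).toIsTopologicalGroup
  change T2Space (FreeGroup X)
  refine IsTopologicalGroup.t2Space_of_one_sep fun g hg => ?_
  obtain ⟨ε, hε, hsep⟩ := exists_sep g.toWord FreeGroup.isReduced_toWord
  refine ⟨_, GV_mem rh_pm rh_cont (1 : FreeGroup X) hε, fun hcon => hg ?_⟩
  obtain ⟨L, c, hL, hN, hc⟩ := hcon
  have e : FreeGroup.mk L = FreeGroup.mk g.toWord := by
    rw [hL, FreeGroup.mk_toWord]; simp
  obtain ⟨c', hc', h'⟩ := NC.inv rh_pm e c hN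
  have := nc_nil_of_sep rh_pm h' (hsep c' (hc'.trans_lt hc))
  exact FreeGroup.toWord_eq_nil_iff.1 this

theorem t35_freeTop : @T35Space (FreeGroup X) (freeTop X) := by
  let _ : TopologicalSpace (FreeGroup X) := (FT X).toTopologicalSpace
  have _ : IsTopologicalGroup (FreeGroup X) := (FT X).toIsTopologicalGroup
  have _ : T2Space (FreeGroup X) := t2_freeTop
  change T35Space (FreeGroup X)
  let _ : UniformSpace (FreeGroup X) := IsTopologicalGroup.rightUniformSpace (FreeGroup X)
  exact {}

theorem fu_metric (hK : IsCompact {x : X | ¬ IsOpen ({x} : Set X)}) : FrechetUrysohnSpace (FLevel 4 X) := by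
  classical
  let T : TopologicalSpace (FreeGroup X) := (FT X).toTopologicalSpace
  change @FrechetUrysohnSpace
        {w : FreeGroup X // ∃ L : List (X × Bool), L.length ≤ 4 ∧ FreeGroup.mk L = w} instTopologicalSpaceSubtype
  refine ⟨fun s a ha => ?_⟩
  have hcl : (a : FreeGroup X) ∈ closure (Subtype.val '' s) := by
    rw [closure_subtype] at ha
    exact ha
  have hlen : ∀ w ∈ (Subtype.val '' s : Set (FreeGroup X)), w.toWord.length ≤ 4 := by
    rintro _ ⟨⟨w, L, hL, rfl⟩, _, rfl⟩
    exact (FreeGroup.norm_mk_le (L₁ := L)).trans hL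
  have hmain : ∃ w : ℕ → FreeGroup X, (∀ n, w n ∈ (Subtype.val '' s : Set (FreeGroup X))) ∧
      Filter.Tendsto w Filter.atTop (nhds (a : FreeGroup X)) := by
    by_cases hne : (KS X).Nonempty
    · exact main_of_nonempty hK hne _ hlen _ hcl
    · exact main_of_empty hne _ _ hcl
  obtain ⟨w, hw, hlim⟩ := hmain
  choose v hv hvw using hw
  refine ⟨v, hv, ?_⟩
  rw [tendsto_subtype_rng]
  have : (fun n => (v n : FreeGroup X)) = w := funext hvw
  rw [this]
  exact hlim

end metric

theorem kr_cont_of_sequential {Y : Type u} [TopologicalSpace Y] [SequentialSpace Y] (f : Y → ℝ)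
    (hf : ∀ K : Set Y, IsCompact K → ContinuousOn f K) : Continuous f := by
  refine SeqContinuous.continuous fun x p hx => ?_
  have hK : IsCompact (insert p (range x)) := hx.isCompact_insert_range
  have h1 : Tendsto x atTop (𝓝[insert p (range x)] p) :=
    tendsto_nhdsWithin_iff.2 ⟨hx, Eventually.of_forall fun n => Or.inr (mem_range_self n)⟩
  exact (hf _ hK p (Or.inl rfl)).tendsto.comp h1

/-- `F_4(X)` is Fréchet–Urysohn and a `k_R`-space for every metrizable `X` with a compact set of non-isolated
points. -/
theorem fu_kr (X : Type u) [TopologicalSpace X] [TopologicalSpace.MetrizableSpace X]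
    (hK : IsCompact {x : X | ¬ IsOpen ({x} : Set X)}) :
    FrechetUrysohnSpace (FLevel 4 X) ∧ IsKR (FLevel 4 X) := by
  let _ : MetricSpace X := TopologicalSpace.metrizableSpaceMetric X
  have h1 : FrechetUrysohnSpace (FLevel 4 X) := fu_metric hK
  refine ⟨h1, ?_, fun f hf => kr_cont_of_sequential f hf⟩
  let _ : TopologicalSpace (FreeGroup X) := freeTop X
  have _ : T35Space (FreeGroup X) := t35_freeTop
  change @T35Space
        {w : FreeGroup X // ∃ L : List (X × Bool), L.length ≤ 4 ∧ FreeGroup.mk L = w} instTopologicalSpaceSubtype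
  infer_instance

end Pool.Agent.N490.FG
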