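import Pool.Agent.N490.FG.Met

/-!
# `F_4(X)` is Fréchet–Urysohn when the set of the non-isolated points of the metrizable space `X` is compact
-/

set_option autoImplicit false

open Set Filter Topology BoundedContinuousFunction

namespace Pool.Agent.N490.FG
open FreeGroup Classical

universe u

theorem nhds_bot_eq {α : Type*} (g : α) : @nhds α ⊥ g = pure g := by
  let _ : TopologicalSpace α := ⊥
  have : DiscreteTopology α := ⟨rfl⟩
  rw [nhds_discrete]

variable {X : Type u} [MetricSpace X]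

attribute [local instance] instTopFT instTopGroupFT
set_option linter.unusedSectionVars false

theorem rh_pos {x y : X} (h : x ≠ y) : 0 < rh x y := by
  rw [rh_of_ne h]
  have h2 := ed_nonneg y
  have h3 := ed_nonneg x
  have h5 : 0 < dist x y := dist_pos.2 h
  exact lt_min one_pos (by linarith)

theorem rh_le_one (x y : X) : rh x y ≤ 1 := by
  by_cases h : x = y
  · rw [h, rh_self]; exact zero_le_one
  · rw [rh_of_ne h]; exact min_le_left _ _

theorem exists_sep (H : List (X × Bool)) (hH : FreeGroup.IsReduced H) :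
    ∃ ε > 0, ∀ c < ε, Sep rh H c := by
  induction H with
  | nil => exact ⟨1, one_pos, fun c _ u v x y b h => by simp at h⟩
  | cons a H ih =>
    have hH' : FreeGroup.IsReduced H := by
      cases H with
      | nil => exact FreeGroup.IsReduced.nil
      | cons b H => exact (FreeGroup.isReduced_cons_cons.1 hH).2
    obtain ⟨ε', hε', h'⟩ := ih hH'
    cases H with
    | nil =>
      refine ⟨1, one_pos, fun c _ u v x y b h => ?_⟩
      exfalso
      have := congrArg List.length h
      simp at this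
      omega
    | cons b H =>
      obtain ⟨x, i⟩ := a
      obtain ⟨y, j⟩ := b
      rw [FreeGroup.isReduced_cons_cons] at hH
      have hxy := hH.1
      simp only at hxy
      by_cases hne : x = y
      · refine ⟨ε', hε', fun c hc u v x' y' b' h => ?_⟩
        cases u with
        | nil =>
          simp only [List.nil_append, List.cons.injEq, Prod.mk.injEq] at h
          obtain ⟨⟨rfl, rfl⟩, ⟨rfl, hb⟩, rfl⟩ := h
          exfalso
          have := hxy hne
          rw [hb] at this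
          cases i <;> simp at this
        | cons z u =>
          simp only [List.cons_append, List.cons.injEq] at h
          exact h' c hc u v x' y' b' (by rw [← h.2])
      · refine ⟨min ε' (rh x y), lt_min hε' (rh_pos hne), fun c hc u v x' y' b' h => ?_⟩
        cases u with
        | nil =>
          simp only [List.nil_append, List.cons.injEq, Prod.mk.injEq] at h
          obtain ⟨⟨rfl, rfl⟩, ⟨rfl, hb⟩, rfl⟩ := h
          exact hc.trans_le (min_le_right _ _)
        | cons z u =>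
          simp only [List.cons_append, List.cons.injEq] at h
          exact h' c (hc.trans_le (min_le_left _ _)) u v x' y' b' (by rw [← h.2])

theorem dec_of_mem (g w : FreeGroup X) (ε : ℝ) (hsep : ∀ c < ε, Sep rh (FreeGroup.invRev g.toWord) c)
    (h : g⁻¹ * w ∈ GV rh ε) : ∃ c < ε, Dec rh g.toWord w.toWord c := by
  obtain ⟨L, c, hL, hN, hc⟩ := h
  have e : FreeGroup.mk L = FreeGroup.mk (FreeGroup.invRev g.toWord ++ w.toWord) := by
    rw [hL, ← FreeGroup.mul_mk, ← FreeGroup.inv_mk, FreeGroup.mk_toWord, FreeGroup.mk_toWord]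
  obtain ⟨c', hc', h'⟩ := NC.inv rh_pm e c hN
  have := Dec.of_NC rh_pm h' (FreeGroup.invRev g.toWord) w.toWord rfl (hsep c' (hc'.trans_lt hc))
  rw [FreeGroup.invRev_invRev] at this
  exact ⟨c', hc'.trans_lt hc, this⟩

/-! ### The affine representation -/

theorem rh_abs (x y z : X) : |rh x z - rh y z| ≤ rh x y := by
  rw [abs_le]
  have h1 := rh_pm.tri x y z
  have h2 := rh_pm.tri y x z
  rw [rh_pm.symm y x] at h2
  constructor <;> linarith

theorem rh_cont_right (x : X) : Continuous (fun z => rh x z) := by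
  rw [continuous_iff_continuousAt]
  intro z
  rw [ContinuousAt, Metric.tendsto_nhds]
  intro ε hε
  filter_upwards [rh_cont z ε hε] with z' hz'
  rw [Real.dist_eq, rh_pm.symm x z', rh_pm.symm x z]
  refine (rh_abs z' z x).trans_lt ?_
  rwa [rh_pm.symm]

/-- The Kuratowski embedding. -/
noncomputable def kur (x : X) : X →ᵇ ℝ :=
  BoundedContinuousFunction.ofNormedAddCommGroup (fun z => rh x z) (rh_cont_right x) 1 (fun z => by
    rw [Real.norm_eq_abs, abs_of_nonneg (rh_pm.nonneg _ _)]; exact rh_le_one _ _)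

theorem kur_apply (x z : X) : kur x z = rh x z := rfl

theorem kur_dist_le (x y : X) : ‖kur x - kur y‖ ≤ rh x y := by
  rw [BoundedContinuousFunction.norm_le (rh_pm.nonneg _ _)]
  intro z
  rw [BoundedContinuousFunction.sub_apply, kur_apply, kur_apply, Real.norm_eq_abs]
  exact rh_abs x y z

theorem le_kur_dist (x y : X) : rh x y ≤ ‖kur x - kur y‖ := by
  have h := (kur x - kur y).norm_coe_le_norm y
  rw [BoundedContinuousFunction.sub_apply, kur_apply, kur_apply, rh_self, sub_zero,
    Real.norm_eq_abs, abs_of_nonneg (rh_pm.nonneg _ _)] at h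
  exact h

theorem kur_cont : Continuous (kur : X → X →ᵇ ℝ) := by
  rw [continuous_iff_continuousAt]
  intro x
  rw [ContinuousAt, Metric.tendsto_nhds]
  intro ε hε
  filter_upwards [rh_cont x ε hε] with y hy
  rw [dist_eq_norm]
  refine (kur_dist_le y x).trans_lt ?_
  rwa [rh_pm.symm]

/-- The values of the affine representation on the generators. -/
noncomputable def aff (δ : ℝ) (t : X → ℝˣ) (x : X) : Aff (X →ᵇ ℝ) :=
  if δ ≤ ed x then Aff.mk' (t x) 0 else Aff.mk' 1 (kur x)

theorem mk'_cont : Continuous (fun x : X →ᵇ ℝ => (Aff.mk' 1 x : Aff (X →ᵇ ℝ))) :=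
  (continuous_const.prodMk continuous_id : Continuous fun x : X →ᵇ ℝ => ((1 : ℝˣ), x))

theorem aff_cont (δ : ℝ) (hδ : 0 < δ) (t : X → ℝˣ) : Continuous (aff δ t) := by
  rw [continuous_iff_continuousAt]
  intro x
  by_cases hx : δ ≤ ed x
  · have hiso : IsOpen ({x} : Set X) := by
      by_contra hcon
      have : ed x = 0 := Metric.infDist_zero_of_mem (show x ∈ KS X from hcon)
      linarith
    have : 𝓝 x = pure x := isOpen_singleton_iff_nhds_eq_pure x |>.1 hiso
    rw [ContinuousAt, this]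
    exact tendsto_pure_nhds _ _
  · have hx' : ed x < δ := not_le.1 hx
    have h1 : ∀ᶠ y in 𝓝 x, aff δ t y = Aff.mk' 1 (kur y) := by
      filter_upwards [ed_cont.continuousAt (Iio_mem_nhds hx')] with y hy
      simp only [mem_preimage, mem_Iio] at hy
      simp [aff, not_le.2 hy]
    have h2 : ContinuousAt (fun y => (Aff.mk' 1 (kur y) : Aff (X →ᵇ ℝ))) x :=
      (mk'_cont.comp kur_cont).continuousAt
    exact h2.congr (h1.mono fun y hy => hy.symm)

theorem lift_ltr {H : Type*} [Group H] (f : X → H) (x : X) (b : Bool) :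
    FreeGroup.lift f (ltr x b) = if b then f x else (f x)⁻¹ := by
  cases b
  · rw [ltr_false]; simp
  · rw [ltr_true]; simp

/-- Detection of the conjugated pairs. -/
theorem detect (δ : ℝ) (t : X → ℝˣ) (a u v : X) (i j : Bool) (ha : δ ≤ ed a) (hu : ed u < δ)
    (hv : ed v < δ) :
    ‖(FreeGroup.lift (aff δ t) (ltr a i * (ltr u j * (ltr v j)⁻¹) * (ltr a i)⁻¹)).2‖ =
      |((if i then t a else (t a)⁻¹ : ℝˣ) : ℝ)| * ‖kur u - kur v‖ := by
  have hau : aff δ t u = Aff.mk' 1 (kur u) := by simp [aff, not_le.2 hu]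
  have hav : aff δ t v = Aff.mk' 1 (kur v) := by simp [aff, not_le.2 hv]
  have haa : aff δ t a = Aff.mk' (t a) 0 := by simp [aff, ha]
  have h1 : ∃ x : X →ᵇ ℝ, ‖x‖ = ‖kur u - kur v‖ ∧
      FreeGroup.lift (aff δ t) (ltr u j * (ltr v j)⁻¹) = Aff.mk' 1 x := by
    rw [_root_.map_mul, _root_.map_inv, lift_ltr, lift_ltr, hau, hav]
    cases j
    · refine ⟨-kur u + kur v, ?_, ?_⟩
      · rw [← norm_neg]; congr 1; abel
      · simp only [Bool.false_eq_true, if_false, inv_inv]
        rw [Aff.trans_inv, Aff.trans_mul]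
    · refine ⟨kur u + -kur v, ?_, ?_⟩
      · rw [sub_eq_add_neg]
      · simp only [if_true]
        rw [Aff.trans_inv, Aff.trans_mul]
  obtain ⟨x, hx, h1⟩ := h1
  have h2 : FreeGroup.lift (aff δ t) (ltr a i) =
      Aff.mk' (if i then t a else (t a)⁻¹ : ℝˣ) (0 : X →ᵇ ℝ) := by
    rw [lift_ltr, haa]
    cases i
    · simp only [Bool.false_eq_true, if_false]
      rw [Aff.hom_inv]
    · simp
  rw [_root_.map_mul, _root_.map_mul, _root_.map_inv, h1, h2, Aff.conj_calc, Aff.mk'_snd, norm_smul, Real.norm_eq_abs, hx]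

/-! ### The main theorem -/

theorem seq_of {s : Set (FreeGroup X)} {g : FreeGroup X} (Q : FreeGroup X → ℝ → Prop)
    (h1 : ∀ ε > 0, ∃ w ∈ s, Q w ε)
    (h2 : ∀ O ∈ 𝓝 g, ∃ δ > 0, ∀ ε > 0, ε < δ → ∀ w ∈ s, Q w ε → w ∈ O) :
    ∃ w : ℕ → FreeGroup X, (∀ n, w n ∈ s) ∧ Tendsto w atTop (𝓝 g) := by
  have h3 : ∀ n : ℕ, ∃ w ∈ s, Q w (1 / ((n : ℝ) + 1)) := fun n => h1 _ (by positivity)
  choose w hw hQ using h3
  refine ⟨w, hw, fun O hO => ?_⟩
  obtain ⟨δ, hδ, h⟩ := h2 O hO
  have h4 : ∀ᶠ n : ℕ in atTop, 1 / ((n : ℝ) + 1) < δ :=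
    (tendsto_one_div_add_atTop_nhds_zero_nat (𝕜 := ℝ)).eventually (Iio_mem_nhds hδ)
  refine Filter.mem_map.2 ?_
  filter_upwards [h4] with n hn
  exact h _ (by positivity) hn (w n) (hw n) (hQ n)

theorem main_of_nonempty (hK : IsCompact (KS X)) (hne : (KS X).Nonempty) (s : Set (FreeGroup X))
    (hs : ∀ w ∈ s, w.toWord.length ≤ 4) (g : FreeGroup X) (hg : g ∈ closure s) :
    ∃ w : ℕ → FreeGroup X, (∀ n, w n ∈ s) ∧ Tendsto w atTop (𝓝 g) := by
  have hred : FreeGroup.IsReduced (FreeGroup.invRev g.toWord) := by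
    rw [← FreeGroup.toWord_inv]; exact FreeGroup.isReduced_toWord
  obtain ⟨ε0, hε0, hsep⟩ := exists_sep _ hred
  -- elements of `s` close to `g`
  have hnear : ∀ ε > 0, ε ≤ ε0 → ∀ U ∈ 𝓝 g, ∃ w ∈ s, w ∈ U ∧ ∃ c < ε, Dec rh g.toWord w.toWord c := by
    intro ε hε hε' U hU
    obtain ⟨w, ⟨hwU, hwG⟩, hws⟩ := mem_closure_iff_nhds.1 hg _
      (inter_mem hU (GV_mem rh_pm rh_cont g hε))
    exact ⟨w, hws, hwU, dec_of_mem g w ε (fun c hc => hsep c (hc.trans_le hε')) hwG⟩
  by_cases hA : ∀ ε > 0, ∃ w ∈ s, ∃ c < ε, Fl rh g.toWord w.toWord c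
  · refine seq_of (fun w ε => ∃ c < ε, Fl rh g.toWord w.toWord c) hA ?_
    intro O hO
    obtain ⟨δ, hδ, h⟩ := unif_flat hK hne 4 g.toWord O (by rwa [FreeGroup.mk_toWord])
    refine ⟨δ, hδ, ?_⟩
    rintro ε hε hεδ w hw ⟨c, hc, hF⟩
    have := h w.toWord c (hs w hw) (hc.trans hεδ) hF
    rwa [FreeGroup.mk_toWord] at this
  push Not at hA
  obtain ⟨ε1, hε1, hA⟩ := hA
  -- `g = 1`
  have hG : g.toWord = [] := by
    obtain ⟨w, hw, -, c, hc, hD⟩ := hnear (min ε0 ε1) (lt_min hε0 hε1) (min_le_left _ _) univ univ_mem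
    by_contra hcon
    have h1 : 1 ≤ g.toWord.length := List.length_pos_iff.2 hcon
    exact hA w hw c (hc.trans_le (min_le_right _ _)) (hD.flat (by have := hs w hw; omega))
  have hg1 : g = 1 := FreeGroup.toWord_eq_nil_iff.1 hG
  subst hg1
  -- all close elements are nested
  have hnest : ∀ ε > 0, ε ≤ min ε0 ε1 → ∀ U ∈ 𝓝 (1 : FreeGroup X), ∃ w ∈ s, w ∈ U ∧
      ∃ (a b u v : X) (i j : Bool), w.toWord = [(a, i), (u, j), (v, !j), (b, !i)] ∧
        rh a b < ε ∧ rh u v < ε := by
    intro ε hε hε' U hU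
    obtain ⟨w, hw, hwU, c, hc, hD⟩ := hnear ε hε (hε'.trans (min_le_left _ _)) U hU
    rw [hG] at hD
    have hN : NC rh w.toWord c := by
      cases hD with
      | nil _ _ h => exact h
    rcases hN.four (hs w hw) with hF | ⟨a, b, u, v, i, j, h1, h2⟩
    · exact absurd (by rw [hG]; exact hF) (hA w hw c (hc.trans_le (hε'.trans (min_le_right _ _))))
    · have n1 := rh_pm.nonneg a b
      have n2 := rh_pm.nonneg u v
      exact ⟨w, hw, hwU, a, b, u, v, i, j, h1, by linarith, by linarith⟩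
  by_cases hB1 : ∀ ε > 0, ∃ w ∈ s, ∃ (a b u v : X) (i j : Bool),
      w = ltr a i * (ltr u j * (ltr v j)⁻¹) * (ltr b i)⁻¹ ∧ rh a b < ε ∧ ed a < ε ∧ rh u v < ε
  · refine seq_of (fun w ε => ∃ (a b u v : X) (i j : Bool),
      w = ltr a i * (ltr u j * (ltr v j)⁻¹) * (ltr b i)⁻¹ ∧ rh a b < ε ∧ ed a < ε ∧ rh u v < ε) hB1 ?_
    intro O hO
    have h1 : ∀ i j : Bool, ∃ δ > 0, ∀ a b u v : X, rh a b < δ → ed a < δ → rh u v < δ →
      ltr a i * (ltr u j * (ltr v j)⁻¹) * (ltr b i)⁻¹ ∈ O := fun i j => unif_nested hK hne O hO i j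
    choose d hd hd' using h1
    refine ⟨min (min (d true true) (d true false)) (min (d false true) (d false false)),
      lt_min (lt_min (hd _ _) (hd _ _)) (lt_min (hd _ _) (hd _ _)), ?_⟩
    rintro ε hε hεδ w hw ⟨a, b, u, v, i, j, rfl, h1, h2, h3⟩
    have hle : ε < d i j := by
      cases i <;> cases j
      · exact hεδ.trans_le ((min_le_right _ _).trans (min_le_right _ _))
      · exact hεδ.trans_le ((min_le_right _ _).trans (min_le_left _ _))
      · exact hεδ.trans_le ((min_le_left _ _).trans (min_le_right _ _))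
      · exact hεδ.trans_le ((min_le_left _ _).trans (min_le_left _ _))
    exact hd' i j a b u v (h1.trans hle) (h2.trans hle) (h3.trans hle)
  push Not at hB1
  obtain ⟨δ0, hδ0, hB1⟩ := hB1
  by_cases hB2 : ∃ (a : X) (i j : Bool), ∀ ε > 0, ∃ u v : X, rh u v < ε ∧
      ltr a i * (ltr u j * (ltr v j)⁻¹) * (ltr a i)⁻¹ ∈ s
  · obtain ⟨a, i, j, hB2⟩ := hB2
    refine seq_of (fun w ε => ∃ u v : X, rh u v < ε ∧
      w = ltr a i * (ltr u j * (ltr v j)⁻¹) * (ltr a i)⁻¹) ?_ ?_
    · intro ε hε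
      obtain ⟨u, v, h1, h2⟩ := hB2 ε hε
      exact ⟨_, h2, u, v, h1, rfl⟩
    · intro O hO
      have hc : Tendsto (fun t : FreeGroup X => ltr a i * t * (ltr a i)⁻¹) (𝓝 1) (𝓝 1) := by
        have : Continuous (fun t : FreeGroup X => ltr a i * t * (ltr a i)⁻¹) :=
          (continuous_const.mul continuous_id).mul continuous_const
        have h := this.tendsto 1
        simpa using h
      obtain ⟨δ, hδ, h⟩ := unif_pair hK hne _ (hc hO) j
      refine ⟨δ, hδ, ?_⟩
      rintro ε hε hεδ w hw ⟨u, v, h1, rfl⟩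
      exact h u v (h1.trans hεδ)
  push Not at hB2
  choose d hd hd' using hB2
  exfalso
  -- the scale of a point
  let m : X → ℝ := fun a => min (min (d a true true) (d a true false)) (min (d a false true) (d a false false))
  have hm : ∀ a, 0 < m a := fun a =>
    lt_min (lt_min (hd _ _ _) (hd _ _ _)) (lt_min (hd _ _ _) (hd _ _ _))
  have hmd : ∀ a i j, m a ≤ d a i j := by
    intro a i j
    cases i <;> cases j
    · exact (min_le_right _ _).trans (min_le_right _ _)
    · exact (min_le_right _ _).trans (min_le_left _ _)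
    · exact (min_le_left _ _).trans (min_le_right _ _)
    · exact (min_le_left _ _).trans (min_le_left _ _)
  set δ := min 1 (min δ0 (min ε0 ε1)) with hδdef
  have hδ : 0 < δ := lt_min one_pos (lt_min hδ0 (lt_min hε0 hε1))
  let t1 : X → ℝˣ := fun a => Units.mk0 (m a)⁻¹ (inv_ne_zero (hm a).ne')
  let t2 : X → ℝˣ := fun a => Units.mk0 (m a) (hm a).ne'
  have hnb : ∀ t : X → ℝˣ, {w : FreeGroup X | ‖(FreeGroup.lift (aff δ t) w).2‖ < 1} ∈ 𝓝 (1 : FreeGroup X) := by
    intro t
    have hc : Continuous (fun w : FreeGroup X => ‖(FreeGroup.lift (aff δ t) w).2‖) :=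
      continuous_norm.comp (Aff.continuous_snd'.comp (continuous_lift' _ (aff_cont δ hδ t)))
    refine hc.continuousAt (Iio_mem_nhds ?_)
    rw [_root_.map_one, Aff.one_snd, norm_zero]
    exact one_pos
  obtain ⟨w, hw, ⟨hw1, hw2⟩, a, b, u, v, i, j, hww, hab, huv⟩ := hnest δ hδ
    ((min_le_right _ _).trans (min_le_right _ _)) _ (inter_mem (hnb t1) (hnb t2))
  have hwe : w = ltr a i * (ltr u j * (ltr v j)⁻¹) * (ltr b i)⁻¹ := by
    rw [← mk_nested, ← hww, FreeGroup.mk_toWord]
  have hδ1 : δ ≤ 1 := min_le_left _ _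
  have hδδ0 : δ ≤ δ0 := (min_le_right _ _).trans (min_le_left _ _)
  -- `ed a` is large
  have hea : δ ≤ ed a := by
    by_contra hcon
    have := hB1 w hw a b u v i j hwe (hab.trans_le hδδ0) ((not_le.1 hcon).trans_le hδδ0)
    linarith
  have hab' : a = b := by
    by_contra hcon
    have := (rh_lt hcon hδ1 hab).2.1
    linarith
  subst hab'
  have huv' : u ≠ v := by
    rintro rfl
    have hr : FreeGroup.IsReduced w.toWord := FreeGroup.isReduced_toWord
    rw [hww, FreeGroup.isReduced_cons_cons, FreeGroup.isReduced_cons_cons] at hr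
    have := hr.2.1 rfl
    cases j <;> simp at this
  obtain ⟨-, hu, hv⟩ := rh_lt huv' hδ1 huv
  have hbig : m a ≤ rh u v := by
    by_contra hcon
    exact hd' a i j u v ((not_le.1 hcon).trans_le (hmd a i j)) (by rw [← hwe]; exact hw)
  have hk := le_kur_dist u v
  cases i with
  | true =>
    have h3 := detect δ t1 a u v true j hea hu hv
    rw [← hwe] at h3
    simp only [mem_ofPred_eq] at hw1
    rw [h3] at hw1
    simp only [if_true, t1, Units.val_mk0] at hw1
    rw [abs_of_pos (inv_pos.2 (hm a)), inv_mul_lt_iff₀ (hm a)] at hw1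
    linarith
  | false =>
    have h3 := detect δ t2 a u v false j hea hu hv
    rw [← hwe] at h3
    simp only [mem_ofPred_eq] at hw2
    rw [h3] at hw2
    simp only [Bool.false_eq_true, if_false, t2, Units.val_inv_eq_inv_val, Units.val_mk0] at hw2
    rw [abs_of_pos (inv_pos.2 (hm a)), inv_mul_lt_iff₀ (hm a)] at hw2
    linarith

/-- The discrete case. -/
theorem main_of_empty (hne : ¬ (KS X).Nonempty) (s : Set (FreeGroup X))
    (g : FreeGroup X) (hg : g ∈ closure s) :
    ∃ w : ℕ → FreeGroup X, (∀ n, w n ∈ s) ∧ Tendsto w atTop (𝓝 g) := by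
  have hd : DiscreteTopology X := by
    refine discreteTopology_iff_isOpen_singleton.2 fun x => ?_
    by_contra hcon
    exact hne ⟨x, hcon⟩
  have hle : (FT X).toTopologicalSpace ≤ (⊥ : GroupTopology (FreeGroup X)).toTopologicalSpace :=
    FT_le _ (@continuous_of_discreteTopology X _ hd (FreeGroup X)
      (⊥ : GroupTopology (FreeGroup X)).toTopologicalSpace _)
  have hbot : (FT X).toTopologicalSpace = ⊥ := le_bot_iff.1 hle
  have hg' : g ∈ s := by
    have h1 : ({g} : Set (FreeGroup X)) ∈ 𝓝 g := by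
      change {g} ∈ @nhds _ (FT X).toTopologicalSpace g
      rw [hbot, nhds_bot_eq]
      exact rfl
    obtain ⟨w, hw1, hw2⟩ := mem_closure_iff_nhds.1 hg _ h1
    rw [mem_singleton_iff] at hw1
    rwa [← hw1]
  exact ⟨fun _ => g, fun _ => hg', tendsto_const_nhds⟩

end Pool.Agent.N490.FG
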