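import Pool.Agent.N490.FG.Top

/-!
# The pseudometric adapted to a space with compact set of non-isolated points, and uniform convergence
-/

set_option autoImplicit false

open Set Filter Topology

namespace Pool.Agent.N490.FG
open FreeGroup

universe u

/-- The set of the non-isolated points. -/
def KS (X : Type u) [TopologicalSpace X] : Set X := {x | ¬ IsOpen ({x} : Set X)}

variable {X : Type u} [MetricSpace X]

/-- Distance to the set of the non-isolated points. -/
noncomputable def ed (x : X) : ℝ := Metric.infDist x (KS X)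

open Classical in
/-- The adapted metric. -/
noncomputable def rh (x y : X) : ℝ := if x = y then 0 else min 1 (dist x y + ed x + ed y)

theorem ed_nonneg (x : X) : 0 ≤ ed x := Metric.infDist_nonneg

theorem ed_cont : Continuous (ed : X → ℝ) := Metric.continuous_infDist_pt _

theorem rh_of_ne {x y : X} (h : x ≠ y) : rh x y = min 1 (dist x y + ed x + ed y) := by
  simp [rh, h]

theorem rh_self (x : X) : rh x x = 0 := by simp [rh]

theorem rh_pm : PM (rh : X → X → ℝ) where
  self := rh_self
  symm x y := by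
    by_cases h : x = y
    · rw [h]
    · rw [rh_of_ne h, rh_of_ne (Ne.symm h), dist_comm]; congr 1; ring
  nonneg x y := by
    by_cases h : x = y
    · rw [h, rh_self]
    · rw [rh_of_ne h]
      have := ed_nonneg x
      have := ed_nonneg y
      exact le_min zero_le_one (by positivity)
  tri x y z := by
    have hn : ∀ a b : X, 0 ≤ rh a b := by
      intro x y
      by_cases h : x = y
      · rw [h, rh_self]
      · rw [rh_of_ne h]
        have := ed_nonneg x
        have := ed_nonneg y
        exact le_min zero_le_one (by positivity)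
    by_cases hxz : x = z
    · rw [hxz, rh_self]; exact add_nonneg (hn _ _) (hn _ _)
    by_cases hxy : x = y
    · rw [← hxy, rh_self, zero_add]
    by_cases hyz : y = z
    · rw [← hyz, rh_self, add_zero]
    rw [rh_of_ne hxz, rh_of_ne hxy, rh_of_ne hyz]
    have h1 := dist_triangle x y z
    have h2 := ed_nonneg y
    have h3 := ed_nonneg x
    have h4 := ed_nonneg z
    have h5 : 0 ≤ dist x y := dist_nonneg
    have h6 : 0 ≤ dist y z := dist_nonneg
    rcases le_total 1 (dist x y + ed x + ed y) with h | h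
    · rw [min_eq_left h]
      have : 0 ≤ min 1 (dist y z + ed y + ed z) := le_min zero_le_one (by positivity)
      exact (min_le_left _ _).trans (by linarith)
    · rw [min_eq_right h]
      rcases le_total 1 (dist y z + ed y + ed z) with h' | h'
      · rw [min_eq_left h']
        exact (min_le_left _ _).trans (by linarith)
      · rw [min_eq_right h']
        exact (min_le_right _ _).trans (by linarith)

theorem rh_lt {x y : X} (hne : x ≠ y) {δ : ℝ} (hδ : δ ≤ 1) (h : rh x y < δ) :
    dist x y < δ ∧ ed x < δ ∧ ed y < δ := by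
  rw [rh_of_ne hne] at h
  have h2 := ed_nonneg y
  have h3 := ed_nonneg x
  have h5 : 0 ≤ dist x y := dist_nonneg
  rcases min_lt_iff.1 h with h | h
  · linarith
  · exact ⟨by linarith, by linarith, by linarith⟩

theorem rh_cont (x : X) (ε : ℝ) (hε : 0 < ε) : ∀ᶠ y in 𝓝 x, rh x y < ε := by
  by_cases hx : IsOpen ({x} : Set X)
  · filter_upwards [hx.mem_nhds rfl] with y hy
    rw [mem_singleton_iff] at hy
    rw [hy, rh_self]; exact hε
  · have h0 : ed x = 0 := Metric.infDist_zero_of_mem hx
    have h1 : Tendsto (fun y => dist x y + ed x + ed y) (𝓝 x) (𝓝 (dist x x + ed x + ed x)) := by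
      refine ((Tendsto.dist tendsto_const_nhds tendsto_id).add tendsto_const_nhds).add ?_
      exact ed_cont.continuousAt
    rw [h0, dist_self, add_zero, add_zero] at h1
    filter_upwards [h1 (Iio_mem_nhds hε)] with y hy
    by_cases hxy : x = y
    · rw [hxy, rh_self]; exact hε
    · rw [rh_of_ne hxy]
      simp only [mem_preimage, mem_Iio] at hy
      exact (min_le_right _ _).trans_lt (by rw [h0]; exact hy)

theorem rh_nhds (x : X) (O : Set X) (hO : O ∈ 𝓝 x) : ∃ δ > 0, ∀ y, rh x y < δ → y ∈ O := by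
  obtain ⟨r, hr, h⟩ := Metric.mem_nhds_iff.1 hO
  refine ⟨min 1 r, lt_min one_pos hr, fun y hy => ?_⟩
  by_cases hxy : x = y
  · rw [← hxy]; exact mem_of_mem_nhds hO
  · have := (rh_lt hxy (min_le_left _ _) hy).1
    apply h
    rw [Metric.mem_ball, dist_comm]
    exact this.trans_le (min_le_right _ _)

theorem near_diag (hK : IsCompact (KS X)) (hne : (KS X).Nonempty) (W : Set (X × X)) (hW : IsOpen W)
    (hd : ∀ z ∈ KS X, (z, z) ∈ W) : ∃ δ > 0, ∀ a b : X, ed a < δ → dist a b < δ → (a, b) ∈ W := by
  have hC : IsCompact ((fun z : X => (z, z)) '' KS X) := hK.image (by fun_prop)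
  obtain ⟨r, hr, h⟩ := hC.exists_thickening_subset_open hW (by rintro _ ⟨z, hz, rfl⟩; exact hd z hz)
  refine ⟨r / 2, half_pos hr, fun a b ha hab => h ?_⟩
  obtain ⟨z, hz, hza⟩ := (Metric.infDist_lt_iff hne).1 ha
  rw [Metric.mem_thickening_iff]
  refine ⟨(z, z), ⟨z, hz, rfl⟩, ?_⟩
  rw [Prod.dist_eq]
  refine max_lt (by simp only; linarith) ?_
  simp only
  have := dist_triangle b a z
  rw [dist_comm b a] at this
  linarith

attribute [local instance] instTopFT instTopGroupFT
set_option linter.unusedSectionVars false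

/-- The letter `x^{±1}`. -/
def ltr (x : X) (b : Bool) : FreeGroup X := FreeGroup.mk [(x, b)]

theorem ltr_true (x : X) : ltr x true = FreeGroup.of x := rfl
theorem ltr_not (x : X) (b : Bool) : ltr x (!b) = (ltr x b)⁻¹ := by
  simp [ltr, FreeGroup.inv_mk, FreeGroup.invRev]
theorem ltr_false (x : X) : ltr x false = (FreeGroup.of x)⁻¹ := by
  rw [← ltr_true, ← ltr_not]; rfl
theorem mk_cons (x : X) (b : Bool) (L : List (X × Bool)) :
    FreeGroup.mk ((x, b) :: L) = ltr x b * FreeGroup.mk L := by
  simp [ltr, FreeGroup.mul_mk]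

theorem ltr_cont (b : Bool) : Continuous (fun x : X => ltr x b) := by
  cases b
  · simp only [ltr_false]; exact continuous_of'.inv
  · simp only [ltr_true]; exact continuous_of'

theorem mk_nested (a b u v : X) (i j : Bool) :
    FreeGroup.mk [(a, i), (u, j), (v, !j), (b, !i)] =
      ltr a i * (ltr u j * (ltr v j)⁻¹) * (ltr b i)⁻¹ := by
  simp only [mk_cons, ltr_not]
  have : FreeGroup.mk ([] : List (X × Bool)) = 1 := rfl
  rw [this]; group

theorem unif_pair (hK : IsCompact (KS X)) (hne : (KS X).Nonempty) (O : Set (FreeGroup X))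
    (hO : O ∈ 𝓝 (1 : FreeGroup X)) (j : Bool) :
    ∃ δ > 0, ∀ u v : X, rh u v < δ → ltr u j * (ltr v j)⁻¹ ∈ O := by
  have hc : Continuous (fun p : X × X => ltr p.1 j * (ltr p.2 j)⁻¹) :=
    ((ltr_cont j).comp continuous_fst).mul ((ltr_cont j).comp continuous_snd).inv
  obtain ⟨δ, hδ, h⟩ := near_diag hK hne ((fun p : X × X => ltr p.1 j * (ltr p.2 j)⁻¹) ⁻¹' (interior O))
    (isOpen_interior.preimage hc) (by
      intro z _
      simp only [mem_preimage, mul_inv_cancel]
      exact mem_interior_iff_mem_nhds.2 hO)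
  refine ⟨min 1 δ, lt_min one_pos hδ, fun u v huv => ?_⟩
  by_cases hne' : u = v
  · rw [hne', mul_inv_cancel]; exact mem_of_mem_nhds hO
  · obtain ⟨h1, h2, h3⟩ := rh_lt hne' (min_le_left _ _) huv
    exact interior_subset (h u v (h2.trans_le (min_le_right _ _)) (h1.trans_le (min_le_right _ _)))

theorem unif_nested (hK : IsCompact (KS X)) (hne : (KS X).Nonempty) (O : Set (FreeGroup X))
    (hO : O ∈ 𝓝 (1 : FreeGroup X)) (i j : Bool) :
    ∃ δ > 0, ∀ a b u v : X, rh a b < δ → ed a < δ → rh u v < δ →
      ltr a i * (ltr u j * (ltr v j)⁻¹) * (ltr b i)⁻¹ ∈ O := by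
  have hc : Continuous (fun p : (X × X) × FreeGroup X => ltr p.1.1 i * p.2 * (ltr p.1.2 i)⁻¹) :=
    ((((ltr_cont i).comp continuous_fst).comp continuous_fst).mul continuous_snd).mul
      (((ltr_cont i).comp continuous_snd).comp continuous_fst).inv
  have hC : IsCompact ((fun z : X => (z, z)) '' KS X) := hK.image (by fun_prop)
  obtain ⟨U, V, hU, hV, hCU, h1V, hUV⟩ := generalized_tube_lemma hC (isCompact_singleton (x := (1 : FreeGroup X)))
    (isOpen_interior.preimage hc) (n := (fun p : (X × X) × FreeGroup X => ltr p.1.1 i * p.2 * (ltr p.1.2 i)⁻¹) ⁻¹' (interior O)) (by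
      rintro ⟨p, t⟩ ⟨⟨z, _, hz⟩, ht⟩
      simp only [mem_singleton_iff] at ht
      subst ht
      simp only at hz
      subst hz
      simp only [mem_preimage, mul_one, mul_inv_cancel]
      exact mem_interior_iff_mem_nhds.2 hO)
  obtain ⟨δ1, hδ1, h1⟩ := near_diag hK hne U hU (fun z hz => hCU ⟨z, hz, rfl⟩)
  obtain ⟨δ2, hδ2, h2⟩ := unif_pair hK hne V (hV.mem_nhds (h1V rfl)) j
  refine ⟨min 1 (min δ1 δ2), lt_min one_pos (lt_min hδ1 hδ2), fun a b u v hab ha huv => ?_⟩
  have hd : dist a b < δ1 := by
    by_cases hne' : a = b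
    · rw [hne', dist_self]; exact hδ1
    · exact (rh_lt hne' (min_le_left _ _) hab).1.trans_le
        ((min_le_right _ _).trans (min_le_left _ _))
  have ha' : ed a < δ1 := ha.trans_le ((min_le_right _ _).trans (min_le_left _ _))
  have huv' : rh u v < δ2 := huv.trans_le ((min_le_right _ _).trans (min_le_right _ _))
  have h3 : ((a, b), ltr u j * (ltr v j)⁻¹) ∈ U ×ˢ V := ⟨h1 a b ha' hd, h2 u v huv'⟩
  exact interior_subset (hUV h3)

/-- Words obtained from `G` by small perturbations and insertions are close to `G`, uniformly. -/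
theorem unif_flat (hK : IsCompact (KS X)) (hne : (KS X).Nonempty) (N : ℕ) :
    ∀ (G : List (X × Bool)) (O : Set (FreeGroup X)), O ∈ 𝓝 (FreeGroup.mk G) →
      ∃ δ > 0, ∀ (w : List (X × Bool)) (c : ℝ), w.length ≤ N → c < δ → Fl rh G w c →
        FreeGroup.mk w ∈ O := by
  induction N with
  | zero =>
    intro G O hO
    refine ⟨1, one_pos, fun w c hw hc h => ?_⟩
    have hw0 : w = [] := List.length_eq_zero_iff.1 (by omega)
    subst hw0
    cases h with
    | nil => exact mem_of_mem_nhds hO
  | succ N ih =>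
    intro G O hO
    -- insertions
    have hmul : Tendsto (fun p : FreeGroup X × FreeGroup X => p.1 * p.2)
        (𝓝 1 ×ˢ 𝓝 (FreeGroup.mk G)) (𝓝 (FreeGroup.mk G)) := by
      have := (continuous_mul (M := FreeGroup X)).tendsto (1, FreeGroup.mk G)
      rw [nhds_prod_eq] at this
      simpa using this
    obtain ⟨V, hV, O2, hO2, hVO⟩ := Filter.mem_prod_iff.1 (hmul hO)
    obtain ⟨δ1, hδ1, h1⟩ := unif_pair hK hne V hV true
    obtain ⟨δ1', hδ1', h1'⟩ := unif_pair hK hne V hV false
    obtain ⟨δ2, hδ2, h2⟩ := ih G O2 hO2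
    -- perturbation of the first letter
    have hmat : ∃ δ3 > 0, ∀ (G' w : List (X × Bool)) (c : ℝ) (x y : X) (b : Bool), G = (x, b) :: G' →
        w.length ≤ N → c < δ3 → rh x y < δ3 → Fl rh G' w c → FreeGroup.mk ((y, b) :: w) ∈ O := by
      cases G with
      | nil => exact ⟨1, one_pos, fun G' w c x y b h => by simp at h⟩
      | cons a G' =>
        obtain ⟨x, b⟩ := a
        have hmul : Tendsto (fun p : FreeGroup X × FreeGroup X => p.1 * p.2)
            (𝓝 (ltr x b) ×ˢ 𝓝 (FreeGroup.mk G')) (𝓝 (FreeGroup.mk ((x, b) :: G'))) := by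
          have := (continuous_mul (M := FreeGroup X)).tendsto (ltr x b, FreeGroup.mk G')
          rw [nhds_prod_eq] at this
          simpa [mk_cons] using this
        obtain ⟨V3, hV3, O3, hO3, hVO3⟩ := Filter.mem_prod_iff.1 (hmul hO)
        obtain ⟨δ4, hδ4, h4⟩ := rh_nhds x ((fun x => ltr x b) ⁻¹' V3) ((ltr_cont b).continuousAt hV3)
        obtain ⟨δ5, hδ5, h5⟩ := ih G' O3 hO3
        refine ⟨min δ4 δ5, lt_min hδ4 hδ5, ?_⟩
        intro G'' w c x' y b' heq hw hc hxy hF
        simp only [List.cons.injEq, Prod.mk.injEq] at heq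
        obtain ⟨⟨rfl, rfl⟩, rfl⟩ := heq
        rw [mk_cons]
        exact hVO3 (⟨h4 y (hxy.trans_le (min_le_left _ _)),
          h5 w c hw (hc.trans_le (min_le_right _ _)) hF⟩ : (ltr y b, FreeGroup.mk w) ∈ V3 ×ˢ O3)
    obtain ⟨δ3, hδ3, h3⟩ := hmat
    refine ⟨min (min δ1 δ1') (min δ2 δ3), lt_min (lt_min hδ1 hδ1') (lt_min hδ2 hδ3), ?_⟩
    intro w c hw hc hF
    have hc1 : c < δ1 := hc.trans_le ((min_le_left _ _).trans (min_le_left _ _))
    have hc1' : c < δ1' := hc.trans_le ((min_le_left _ _).trans (min_le_right _ _))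
    have hc2 : c < δ2 := hc.trans_le ((min_le_right _ _).trans (min_le_left _ _))
    have hc3 : c < δ3 := hc.trans_le ((min_le_right _ _).trans (min_le_right _ _))
    cases hF with
    | nil => exact mem_of_mem_nhds hO
    | mat G' w c x y b h =>
      have n1 := rh_pm.nonneg x y
      have n2 := h.cost_nonneg rh_pm
      simp only [List.length_cons] at hw
      exact h3 G' w c x y b rfl (by omega) (by linarith) (by linarith) h
    | ins _ w c x y b h =>
      have n1 := rh_pm.nonneg x y
      have n2 := h.cost_nonneg rh_pm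
      simp only [List.length_cons] at hw
      have e : FreeGroup.mk ((x, b) :: (y, !b) :: w) = (ltr x b * (ltr y b)⁻¹) * FreeGroup.mk w := by
        rw [mk_cons, mk_cons, ltr_not, mul_assoc]
      rw [e]
      have h6 : ltr x b * (ltr y b)⁻¹ ∈ V := by
        cases b
        · exact h1' x y (by linarith)
        · exact h1 x y (by linarith)
      exact hVO (⟨h6, h2 w c (by omega) (by linarith) h⟩ :
        (ltr x b * (ltr y b)⁻¹, FreeGroup.mk w) ∈ V ×ˢ O2)

end Pool.Agent.N490.FG
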