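import Mathlib

/-!
# Graev schemes on words

`NC ρ L c`: the word `L` can be reduced to the empty word by successively deleting adjacent pairs
`x^ε y^{-ε}`, with total cost `c` (the sum of the `ρ x y`).  If `ρ` is a pseudometric, the least cost does not
change under insertion or deletion of `x^ε x^{-ε}`.
-/

set_option autoImplicit false

namespace Pool.Agent.N490.FG
open FreeGroup

universe u
variable {X : Type u}

/-- Deletion schemes of words. -/
inductive NC (ρ : X → X → ℝ) : List (X × Bool) → ℝ → Prop
  | nil : NC ρ [] 0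
  | step (u v : List (X × Bool)) (x y : X) (b : Bool) (c : ℝ) (h : NC ρ (u ++ v) c) :
      NC ρ (u ++ (x, b) :: (y, !b) :: v) (c + ρ x y)

/-- Pseudometrics (real valued). -/
structure PM (ρ : X → X → ℝ) : Prop where
  self : ∀ x, ρ x x = 0
  symm : ∀ x y, ρ x y = ρ y x
  tri : ∀ x y z, ρ x z ≤ ρ x y + ρ y z
  nonneg : ∀ x y, 0 ≤ ρ x y

variable {ρ : X → X → ℝ}

theorem NC.cost_nonneg (hρ : PM ρ) {L : List (X × Bool)} {c : ℝ} (h : NC ρ L c) : 0 ≤ c := by
  induction h with
  | nil => exact le_rfl
  | step u v x y b c h ih => have := hρ.nonneg x y; linarith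

theorem NC.even {L : List (X × Bool)} {c : ℝ} (h : NC ρ L c) : Even L.length := by
  induction h with
  | nil => simp
  | step u v x y b c h ih =>
    have : (u ++ (x, b) :: (y, !b) :: v).length = (u ++ v).length + 2 := by simp; omega
    rw [this]; exact ih.add (by decide)

theorem NC.pair (x y : X) (b : Bool) : NC ρ [(x, b), (y, !b)] (ρ x y) := by
  have := NC.step (ρ := ρ) [] [] x y b 0 (by simpa using NC.nil)
  simpa using this

theorem NC.replace (hρ : PM ρ) {L : List (X × Bool)} {c : ℝ} (h : NC ρ L c) :
    ∀ (u v : List (X × Bool)) (x y : X) (b : Bool), L = u ++ (x, b) :: v →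
      ∃ c' ≤ c + ρ x y, NC ρ (u ++ (y, b) :: v) c' := by
  induction h with
  | nil => intro u v x y b h; simp at h
  | step u1 v1 p q β c h ih =>
    intro u v x y b heq
    rcases List.append_eq_append_iff.1 heq with ⟨a', h1, h2⟩ | ⟨c', h1, h2⟩
    · -- u = u1 ++ a'
      match a', h1, h2 with
      | [], h1, h2 =>
        simp only [List.nil_append, List.cons.injEq, Prod.mk.injEq] at h2
        obtain ⟨⟨rfl, rfl⟩, rfl⟩ := h2
        simp only [List.append_nil] at h1
        subst h1
        refine ⟨c + ρ y q, ?_, NC.step _ _ y q β c h⟩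
        have := hρ.tri y p q
        have := hρ.symm y p
        linarith
      | [z], h1, h2 =>
        simp only [List.cons_append, List.nil_append, List.cons.injEq, Prod.mk.injEq] at h2
        obtain ⟨rfl, ⟨rfl, rfl⟩, rfl⟩ := h2
        subst h1
        refine ⟨c + ρ p y, ?_, ?_⟩
        · have := hρ.tri p q y
          linarith
        · have := NC.step u1 v1 p y β c h
          simpa using this
      | z1 :: z2 :: a'', h1, h2 =>
        simp only [List.cons_append, List.cons.injEq] at h2
        obtain ⟨rfl, rfl, rfl⟩ := h2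
        subst h1
        obtain ⟨c', hc', h'⟩ := ih (u1 ++ a'') v x y b (by simp)
        refine ⟨c' + ρ p q, by linarith, ?_⟩
        have := NC.step u1 (a'' ++ (y, b) :: v) p q β c' (by simpa using h')
        simpa using this
    · match c', h1, h2 with
      | [], h1, h2 =>
        simp only [List.nil_append, List.cons.injEq, Prod.mk.injEq] at h2
        obtain ⟨⟨rfl, rfl⟩, rfl⟩ := h2
        simp only [List.append_nil] at h1
        subst h1
        refine ⟨c + ρ y q, ?_, NC.step _ _ y q b c h⟩
        have := hρ.tri y x q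
        have := hρ.symm y x
        linarith
      | z :: c'', h1, h2 =>
        simp only [List.cons_append, List.cons.injEq] at h2
        obtain ⟨rfl, rfl⟩ := h2
        subst h1
        obtain ⟨c', hc', h'⟩ := ih u (c'' ++ v1) x y b (by simp)
        refine ⟨c' + ρ p q, by linarith, ?_⟩
        have := NC.step (u ++ (y, b) :: c'') v1 p q β c' (by simpa using h')
        simpa using this

theorem NC.cancel (hρ : PM ρ) {L : List (X × Bool)} {c : ℝ} (h : NC ρ L c) :
    ∀ (u v : List (X × Bool)) (x : X) (b : Bool), L = u ++ (x, b) :: (x, !b) :: v →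
      ∃ c' ≤ c, NC ρ (u ++ v) c' := by
  induction h with
  | nil => intro u v x b h; simp at h
  | step u1 v1 p q β c h ih =>
    intro u v x b heq
    have hpq := hρ.nonneg p q
    rcases List.append_eq_append_iff.1 heq with ⟨a', h1, h2⟩ | ⟨c', h1, h2⟩
    · match a', h1, h2 with
      | [], h1, h2 =>
        simp only [List.nil_append, List.cons.injEq, Prod.mk.injEq] at h2
        obtain ⟨⟨rfl, rfl⟩, -, rfl⟩ := h2
        simp only [List.append_nil] at h1
        subst h1
        exact ⟨c, by linarith, h⟩
      | [z], h1, h2 =>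
        simp only [List.cons_append, List.nil_append, List.cons.injEq, Prod.mk.injEq] at h2
        obtain ⟨rfl, ⟨rfl, rfl⟩, rfl⟩ := h2
        subst h1
        obtain ⟨c', hc', h'⟩ := NC.replace hρ h u1 v q p (!!β) rfl
        refine ⟨c', ?_, ?_⟩
        · rw [hρ.symm q p] at hc'; linarith
        · simpa using h'
      | z1 :: z2 :: a'', h1, h2 =>
        simp only [List.cons_append, List.cons.injEq] at h2
        obtain ⟨rfl, rfl, rfl⟩ := h2
        subst h1
        obtain ⟨c', hc', h'⟩ := ih (u1 ++ a'') v x b (by simp)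
        refine ⟨c' + ρ p q, by linarith, ?_⟩
        have := NC.step u1 (a'' ++ v) p q β c' (by simpa using h')
        simpa using this
    · match c', h1, h2 with
      | [], h1, h2 =>
        simp only [List.nil_append, List.cons.injEq, Prod.mk.injEq] at h2
        obtain ⟨⟨rfl, rfl⟩, -, rfl⟩ := h2
        simp only [List.append_nil] at h1
        subst h1
        exact ⟨c, by linarith, h⟩
      | [z], h1, h2 =>
        simp only [List.cons_append, List.nil_append, List.cons.injEq, Prod.mk.injEq] at h2
        obtain ⟨rfl, ⟨rfl, hb⟩, rfl⟩ := h2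
        subst h1
        obtain ⟨c', hc', h'⟩ := NC.replace hρ (by simpa using h) u v1 x q b rfl
        refine ⟨c', by linarith, ?_⟩
        have : (!β) = b := by rw [← hb]; simp
        rw [this]; exact h'
      | z1 :: z2 :: c'', h1, h2 =>
        simp only [List.cons_append, List.cons.injEq] at h2
        obtain ⟨rfl, rfl, rfl⟩ := h2
        subst h1
        obtain ⟨c', hc', h'⟩ := ih u (c'' ++ v1) x b (by simp)
        refine ⟨c' + ρ p q, by linarith, ?_⟩
        have := NC.step (u ++ c'') v1 p q β c' (by simpa using h')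
        simpa using this

theorem NC.insert0 (hρ : PM ρ) {c : ℝ} {u v : List (X × Bool)} (h : NC ρ (u ++ v) c) (x : X) (b : Bool) :
    NC ρ (u ++ (x, b) :: (x, !b) :: v) c := by
  have := NC.step u v x x b c h
  rwa [hρ.self, add_zero] at this

/-- The least cost only depends on the element of the free group. -/
theorem NC.inv (hρ : PM ρ) {L L' : List (X × Bool)} (hL : FreeGroup.mk L = FreeGroup.mk L') :
    ∀ c, NC ρ L c → ∃ c' ≤ c, NC ρ L' c' := by
  have h1 : ∀ A B : List (X × Bool), Red.Step A B → ∀ c, (NC ρ A c → ∃ c' ≤ c, NC ρ B c') ∧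
      (NC ρ B c → ∃ c' ≤ c, NC ρ A c') := by
    intro A B hAB c
    cases hAB with
    | not =>
      rename_i u v x b
      exact ⟨fun h => NC.cancel hρ h u v x b rfl, fun h => ⟨c, le_rfl, NC.insert0 hρ h x b⟩⟩
  have h2 : Relation.EqvGen Red.Step L L' := Quot.eqvGen_exact hL
  induction h2 with
  | rel A B h => exact fun c => (h1 A B h c).1
  | refl A => exact fun c h => ⟨c, le_rfl, h⟩
  | symm A B h ih =>
    have h3 : ∀ A B : List (X × Bool), Relation.EqvGen Red.Step A B →
        (∀ c, (NC ρ A c → ∃ c' ≤ c, NC ρ B c')) ∧ (∀ c, NC ρ B c → ∃ c' ≤ c, NC ρ A c') := by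
      intro A B hAB
      induction hAB with
      | rel A B h => exact ⟨fun c => (h1 A B h c).1, fun c => (h1 A B h c).2⟩
      | refl A => exact ⟨fun c h => ⟨c, le_rfl, h⟩, fun c h => ⟨c, le_rfl, h⟩⟩
      | symm A B _ ih => exact ⟨ih.2, ih.1⟩
      | trans A B C _ _ ih1 ih2 =>
        refine ⟨fun c h => ?_, fun c h => ?_⟩
        · obtain ⟨c1, hc1, h1⟩ := ih1.1 c h
          obtain ⟨c2, hc2, h2⟩ := ih2.1 c1 h1
          exact ⟨c2, hc2.trans hc1, h2⟩
        · obtain ⟨c1, hc1, h1⟩ := ih2.2 c h
          obtain ⟨c2, hc2, h2⟩ := ih1.2 c1 h1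
          exact ⟨c2, hc2.trans hc1, h2⟩
    exact (h3 A B h).2
  | trans A B C hAB hBC ih1 ih2 =>
    intro c h
    obtain ⟨c1, hc1, h1⟩ := ih1 (Quot.eqvGen_sound hAB) c h
    obtain ⟨c2, hc2, h2⟩ := ih2 (Quot.eqvGen_sound hBC) c1 h1
    exact ⟨c2, hc2.trans hc1, h2⟩

theorem NC.mid {L : List (X × Bool)} {c : ℝ} (h : NC ρ L c) :
    ∀ (u v : List (X × Bool)) (d : ℝ), NC ρ (u ++ v) d → NC ρ (u ++ L ++ v) (d + c) := by
  induction h with
  | nil => intro u v d h; simpa using h
  | step u1 v1 x y b c h ih =>
    intro u v d hd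
    have h2 := ih u v d hd
    have h3 := NC.step (u ++ u1) (v1 ++ v) x y b (d + c) (by simpa using h2)
    simpa [add_assoc] using h3

theorem NC.mul {L L' : List (X × Bool)} {c c' : ℝ} (h : NC ρ L c) (h' : NC ρ L' c') :
    NC ρ (L ++ L') (c + c') := by
  have := NC.mid h' L [] c (by simpa using h)
  simpa using this

theorem NC.invRev (hρ : PM ρ) {L : List (X × Bool)} {c : ℝ} (h : NC ρ L c) :
    NC ρ (FreeGroup.invRev L) c := by
  induction h with
  | nil => simpa using NC.nil
  | step u v x y b c h ih =>
    have h3 := NC.step (FreeGroup.invRev v) (FreeGroup.invRev u) y x b c (by simpa using ih)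
    rw [hρ.symm x y]
    have e : FreeGroup.invRev (u ++ (x, b) :: (y, !b) :: v) =
        FreeGroup.invRev v ++ (y, b) :: (x, !b) :: FreeGroup.invRev u := by
      simp [FreeGroup.invRev]
    rw [e]; exact h3

theorem NC.self_inv (hρ : PM ρ) (G : List (X × Bool)) : NC ρ (G ++ FreeGroup.invRev G) 0 := by
  induction G with
  | nil => simpa using NC.nil
  | cons a G ih =>
    obtain ⟨x, b⟩ := a
    have h1 := NC.mid ih [(x, b)] [(x, !b)] 0 (by
      have := NC.pair (ρ := ρ) x x b
      rw [hρ.self] at this
      simpa using this)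
    have e : (x, b) :: G ++ FreeGroup.invRev ((x, b) :: G) =
        [(x, b)] ++ (G ++ FreeGroup.invRev G) ++ [(x, !b)] := by
      simp [FreeGroup.invRev]
    rw [e]; simpa using h1

theorem NC.conj (hρ : PM ρ) {L : List (X × Bool)} {c : ℝ} (h : NC ρ L c) (G : List (X × Bool)) :
    NC ρ (G ++ L ++ FreeGroup.invRev G) c := by
  have := NC.mid h G (FreeGroup.invRev G) 0 (NC.self_inv hρ G)
  simpa using this

/-! ### Words near a given word -/

/-- `Dec ρ G w c`: the word `w` is the word `G` with its letters perturbed and with words reducible to the empty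
word inserted, of total cost `c`. -/
inductive Dec (ρ : X → X → ℝ) : List (X × Bool) → List (X × Bool) → ℝ → Prop
  | nil (w : List (X × Bool)) (c : ℝ) (h : NC ρ w c) : Dec ρ [] w c
  | cons (w0 : List (X × Bool)) (c0 : ℝ) (G w : List (X × Bool)) (c : ℝ) (x y : X) (b : Bool)
      (h0 : NC ρ w0 c0) (h : Dec ρ G w c) : Dec ρ ((x, b) :: G) (w0 ++ (y, b) :: w) (c0 + ρ x y + c)

theorem Dec.insert {G w : List (X × Bool)} {c : ℝ} (h : Dec ρ G w c) :
    ∀ (w1 w2 : List (X × Bool)) (p q : X) (β : Bool), w = w1 ++ w2 →
      Dec ρ G (w1 ++ (p, β) :: (q, !β) :: w2) (c + ρ p q) := by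
  induction h with
  | nil w c h =>
    rintro w1 w2 p q β rfl
    exact Dec.nil _ _ (NC.step _ _ _ _ _ _ h)
  | cons w0 c0 G w c x y b h0 h ih =>
    intro w1 w2 p q β heq
    rcases List.append_eq_append_iff.1 heq with ⟨a', h1, h2⟩ | ⟨c', h1, h2⟩
    · match a', h1, h2 with
      | [], h1, h2 =>
        simp only [List.nil_append] at h2
        simp only [List.append_nil] at h1
        subst h1 h2
        have h3 := Dec.cons (w1 ++ (p, β) :: (q, !β) :: []) (c0 + ρ p q) G w c x y b
          (NC.step _ _ _ _ _ _ (by simpa using h0)) h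
        have e : c0 + ρ x y + c + ρ p q = c0 + ρ p q + ρ x y + c := by ring
        rw [e]; simpa using h3
      | z :: a'', h1, h2 =>
        simp only [List.cons_append, List.cons.injEq] at h2
        obtain ⟨rfl, rfl⟩ := h2
        subst h1
        have h3 := Dec.cons w0 c0 G _ _ x y b h0 (ih a'' w2 p q β rfl)
        have e : c0 + ρ x y + c + ρ p q = c0 + ρ x y + (c + ρ p q) := by ring
        rw [e]; simpa using h3
    · subst h1 h2
      have h3 := Dec.cons (w1 ++ (p, β) :: (q, !β) :: c') (c0 + ρ p q) G w c x y b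
          (NC.step _ _ _ _ _ _ h0) h
      have e : c0 + ρ x y + c + ρ p q = c0 + ρ p q + ρ x y + c := by ring
      rw [e]; simpa using h3

/-- No two adjacent letters of `H` are inverse to each other up to `c`. -/
def Sep (ρ : X → X → ℝ) (H : List (X × Bool)) (c : ℝ) : Prop :=
  ∀ (u v : List (X × Bool)) (x y : X) (b : Bool), H = u ++ (x, b) :: (y, !b) :: v → c < ρ x y

theorem Dec.of_NC (hρ : PM ρ) {L : List (X × Bool)} {c : ℝ} (h : NC ρ L c) :
    ∀ (H w : List (X × Bool)), L = H ++ w → Sep ρ H c → Dec ρ (FreeGroup.invRev H) w c := by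
  induction h with
  | nil =>
    intro H w h _
    simp only [List.nil_eq, List.append_eq_nil_iff] at h
    obtain ⟨rfl, rfl⟩ := h
    simpa using Dec.nil (ρ := ρ) [] 0 NC.nil
  | step u1 v1 p q β c h ih =>
    intro H w heq hS
    have hc := h.cost_nonneg hρ
    have hpq := hρ.nonneg p q
    have hS' : Sep ρ H c := fun u v x y b e => by have := hS u v x y b e; linarith
    rcases List.append_eq_append_iff.1 heq with ⟨a', h1, h2⟩ | ⟨c', h1, h2⟩
    · match a', h1, h2 with
      | [], h1, h2 =>
        simp only [List.nil_append] at h2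
        simp only [List.append_nil] at h1
        subst h1 h2
        have h3 := ih H v1 rfl hS'
        have h4 := h3.insert [] v1 p q β rfl
        simpa using h4
      | [z], h1, h2 =>
        simp only [List.cons_append, List.nil_append, List.cons.injEq] at h2
        obtain ⟨rfl, rfl⟩ := h2
        subst h1
        have h3 := ih u1 v1 rfl (fun u v x y b e => hS' u (v ++ [(p, β)]) x y b (by rw [e]; simp))
        have h4 := Dec.cons [] 0 (FreeGroup.invRev u1) v1 c p q (!β) NC.nil h3
        have e1 : FreeGroup.invRev (u1 ++ [(p, β)]) = (p, !β) :: FreeGroup.invRev u1 := by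
          simp [FreeGroup.invRev]
        rw [e1]
        have e : c + ρ p q = 0 + ρ p q + c := by ring
        rw [e]; simpa using h4
      | z1 :: z2 :: a'', h1, h2 =>
        simp only [List.cons_append, List.cons.injEq] at h2
        obtain ⟨rfl, rfl, rfl⟩ := h2
        subst h1
        have := hS u1 a'' p q β rfl
        linarith
    · subst h1 h2
      have h3 := ih H (c' ++ v1) (by simp) hS'
      exact h3.insert c' v1 p q β rfl

/-- Perturbation of letters and insertion of adjacent pairs. -/
inductive Fl (ρ : X → X → ℝ) : List (X × Bool) → List (X × Bool) → ℝ → Prop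
  | nil : Fl ρ [] [] 0
  | mat (G w : List (X × Bool)) (c : ℝ) (x y : X) (b : Bool) (h : Fl ρ G w c) :
      Fl ρ ((x, b) :: G) ((y, b) :: w) (c + ρ x y)
  | ins (G w : List (X × Bool)) (c : ℝ) (x y : X) (b : Bool) (h : Fl ρ G w c) :
      Fl ρ G ((x, b) :: (y, !b) :: w) (c + ρ x y)

theorem NC.short {L : List (X × Bool)} {c : ℝ} (h : NC ρ L c) (hL : L.length ≤ 3) :
    (L = [] ∧ c = 0) ∨ ∃ x y b, L = [(x, b), (y, !b)] ∧ c = ρ x y := by
  cases h with
  | nil => exact Or.inl ⟨rfl, rfl⟩
  | step u v x y b c h =>
    right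
    have h1 := h.even
    simp only [List.length_append, List.length_cons] at hL h1
    have h2 : u.length = 0 ∧ v.length = 0 := by
      rcases h1 with ⟨k, hk⟩
      omega
    obtain ⟨hu, hv⟩ := h2
    rw [List.length_eq_zero_iff] at hu hv
    subst hu hv
    have h3 : c = 0 := by
      generalize hE : ([] : List (X × Bool)) ++ [] = E at h
      cases h with
      | nil => rfl
      | step u v x y b c h => simp at hE
    exact ⟨x, y, b, rfl, by rw [h3, zero_add]⟩

theorem Dec.length_le {G w : List (X × Bool)} {c : ℝ} (h : Dec ρ G w c) : G.length ≤ w.length := by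
  induction h with
  | nil w c h => simp
  | cons w0 c0 G w c x y b h0 h ih => simp; omega

theorem Dec.flat {G w : List (X × Bool)} {c : ℝ} (h : Dec ρ G w c) (hl : w.length ≤ G.length + 3) :
    Fl ρ G w c := by
  induction h with
  | nil w c h =>
    rcases h.short (by simpa using hl) with ⟨rfl, rfl⟩ | ⟨x, y, b, rfl, rfl⟩
    · exact Fl.nil
    · simpa using Fl.ins [] [] 0 x y b Fl.nil
  | cons w0 c0 G w c x y b h0 h ih =>
    have h1 := h.length_le
    simp only [List.length_append, List.length_cons] at hl
    have h2 : Fl ρ G w c := ih (by omega)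
    rcases h0.short (by omega) with ⟨rfl, rfl⟩ | ⟨p, q, β, rfl, rfl⟩
    · have := Fl.mat G w c x y b h2
      rw [zero_add, add_comm]; simpa using this
    · have h3 := Fl.ins _ _ _ p q β (Fl.mat G w c x y b h2)
      have e : ρ p q + ρ x y + c = c + ρ x y + ρ p q := by ring
      rw [e]; simpa using h3

/-- Words of length four. -/
theorem NC.four {L : List (X × Bool)} {c : ℝ} (h : NC ρ L c) (hL : L.length ≤ 4) :
    Fl ρ [] L c ∨ ∃ (a b u v : X) (i j : Bool), L = [(a, i), (u, j), (v, !j), (b, !i)] ∧ c = ρ a b + ρ u v := by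
  cases h with
  | nil => exact Or.inl Fl.nil
  | step u v x y b c h =>
    simp only [List.length_append, List.length_cons] at hL
    have hs := h.short (by simp only [List.length_append]; omega)
    rcases hs with ⟨h0, rfl⟩ | ⟨p, q, β, h0, rfl⟩
    · simp only [List.append_eq_nil_iff] at h0
      obtain ⟨rfl, rfl⟩ := h0
      left
      exact Fl.ins (ρ := ρ) _ _ _ x y b Fl.nil
    · match u, h0 with
      | [], h0 =>
        simp only [List.nil_append] at h0
        subst h0
        left
        have := Fl.ins (ρ := ρ) _ _ _ x y b (Fl.ins [] [] 0 p q β Fl.nil)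
        simpa using this
      | [z], h0 =>
        simp only [List.cons_append, List.nil_append, List.cons.injEq] at h0
        obtain ⟨rfl, rfl⟩ := h0
        right
        exact ⟨p, q, x, y, β, b, rfl, rfl⟩
      | [z1, z2], h0 =>
        simp only [List.cons_append, List.nil_append, List.cons.injEq] at h0
        obtain ⟨rfl, rfl, rfl⟩ := h0
        left
        have := Fl.ins (ρ := ρ) _ _ _ p q β (Fl.ins [] [] 0 x y b Fl.nil)
        have e : ρ p q + ρ x y = 0 + ρ x y + ρ p q := by ring
        rw [e]; simpa using this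
      | z1 :: z2 :: z3 :: u', h0 =>
        simp at h0

theorem Fl.cost_nonneg (hρ : PM ρ) {G w : List (X × Bool)} {c : ℝ} (h : Fl ρ G w c) : 0 ≤ c := by
  induction h with
  | nil => exact le_rfl
  | mat G w c x y b h ih => have := hρ.nonneg x y; linarith
  | ins G w c x y b h ih => have := hρ.nonneg x y; linarith

end Pool.Agent.N490.FG
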