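import Pool.Agent.N490.FG.NC

/-!
# The free topological group: Graev neighbourhoods, affine representations
-/

set_option autoImplicit false

open Set Filter Topology

namespace Pool.Agent.N490.FG
open FreeGroup

universe u
variable {X : Type u}

/-- The basic Graev neighbourhoods of the identity. -/
def GV (ρ : X → X → ℝ) (ε : ℝ) : Set (FreeGroup X) :=
  {g | ∃ (L : List (X × Bool)) (c : ℝ), FreeGroup.mk L = g ∧ NC ρ L c ∧ c < ε}

/-- The Graev group filter basis of a pseudometric. -/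
@[reducible] def gfb {ρ : X → X → ℝ} (hρ : PM ρ) : GroupFilterBasis (FreeGroup X) where
  sets := {U | ∃ ε : ℝ, 0 < ε ∧ U = GV ρ ε}
  nonempty := ⟨_, 1, one_pos, rfl⟩
  inter_sets := by
    rintro _ _ ⟨a, ha, rfl⟩ ⟨b, hb, rfl⟩
    refine ⟨GV ρ (min a b), ⟨_, lt_min ha hb, rfl⟩, ?_⟩
    rintro g ⟨L, c, h1, h2, h3⟩
    exact ⟨⟨L, c, h1, h2, h3.trans_le (min_le_left _ _)⟩, ⟨L, c, h1, h2, h3.trans_le (min_le_right _ _)⟩⟩
  one' := by
    rintro _ ⟨a, ha, rfl⟩
    exact ⟨[], 0, rfl, NC.nil, ha⟩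
  mul' := by
    rintro _ ⟨a, ha, rfl⟩
    refine ⟨GV ρ (a / 2), ⟨_, half_pos ha, rfl⟩, ?_⟩
    rintro _ ⟨g, ⟨L, c, rfl, h1, h2⟩, h, ⟨L', c', rfl, h1', h2'⟩, rfl⟩
    exact ⟨L ++ L', c + c', by simp [FreeGroup.mul_mk], h1.mul h1', by linarith⟩
  inv' := by
    rintro _ ⟨a, ha, rfl⟩
    refine ⟨GV ρ a, ⟨_, ha, rfl⟩, ?_⟩
    rintro _ ⟨L, c, rfl, h1, h2⟩
    exact ⟨FreeGroup.invRev L, c, by simp [FreeGroup.inv_mk], h1.invRev hρ, h2⟩
  conj' := by
    rintro x _ ⟨a, ha, rfl⟩
    refine ⟨GV ρ a, ⟨_, ha, rfl⟩, ?_⟩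
    rintro _ ⟨L, c, rfl, h1, h2⟩
    obtain ⟨G, rfl⟩ : ∃ G, FreeGroup.mk G = x := Quot.exists_rep x
    exact ⟨G ++ L ++ FreeGroup.invRev G, c, by simp [FreeGroup.inv_mk, FreeGroup.mul_mk], h1.conj hρ G, h2⟩

variable [TopologicalSpace X]

/-- The topology of the free topological group (as in the frozen statement). -/
def FT (X : Type u) [τ : TopologicalSpace X] : GroupTopology (FreeGroup X) :=
  sInf {t : GroupTopology (FreeGroup X) |
            @Continuous X (FreeGroup X) τ t.toTopologicalSpace FreeGroup.of}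

theorem FT_le (t : GroupTopology (FreeGroup X))
    (ht : @Continuous X (FreeGroup X) _ t.toTopologicalSpace FreeGroup.of) :
    (FT X).toTopologicalSpace ≤ t.toTopologicalSpace := by
  have : FT X ≤ t := sInf_le ht
  exact this

local instance instTopFT : TopologicalSpace (FreeGroup X) := (FT X).toTopologicalSpace
local instance instTopGroupFT : IsTopologicalGroup (FreeGroup X) := (FT X).toIsTopologicalGroup

theorem continuous_of' : Continuous (FreeGroup.of : X → FreeGroup X) := by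
  have h : (FT X).toTopologicalSpace = sInf (GroupTopology.toTopologicalSpace ''
      {t : GroupTopology (FreeGroup X) |
            @Continuous X (FreeGroup X) _ t.toTopologicalSpace FreeGroup.of}) :=
    GroupTopology.toTopologicalSpace_sInf _
  change @Continuous X (FreeGroup X) _ (FT X).toTopologicalSpace FreeGroup.of
  rw [h, continuous_sInf_rng]
  rintro _ ⟨t, ht, rfl⟩
  exact ht

/-- The Graev sets are neighbourhoods. -/
theorem GV_mem {ρ : X → X → ℝ} (hρ : PM ρ) (hc : ∀ x, ∀ ε > 0, ∀ᶠ y in 𝓝 x, ρ x y < ε)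
    (g : FreeGroup X) {ε : ℝ} (hε : 0 < ε) : {w | g⁻¹ * w ∈ GV ρ ε} ∈ 𝓝 g := by
  let t : GroupTopology (FreeGroup X) := ⟨(gfb hρ).topology, (gfb hρ).isTopologicalGroup⟩
  have ht : @Continuous X (FreeGroup X) _ t.toTopologicalSpace FreeGroup.of := by
    refine (@continuous_iff_continuousAt X (FreeGroup X) _ t.toTopologicalSpace _).2 ?_
    intro x
    have hb := (gfb hρ).nhds_hasBasis (FreeGroup.of x)
    refine hb.tendsto_right_iff.2 ?_
    rintro _ ⟨ε, hε, rfl⟩
    filter_upwards [hc x ε hε] with y hy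
    refine ⟨(FreeGroup.of x)⁻¹ * FreeGroup.of y, ?_, by simp⟩
    refine ⟨[(x, false), (y, true)], ρ x y, ?_, NC.pair x y false, hy⟩
    simp [FreeGroup.of, FreeGroup.inv_mk, FreeGroup.mul_mk, FreeGroup.invRev]
  have hle := FT_le t ht
  have h1 : {w | g⁻¹ * w ∈ GV ρ ε} ∈ @nhds _ t.toTopologicalSpace g := by
    have hb := (gfb hρ).nhds_hasBasis g
    refine (hb.mem_iff).2 ⟨GV ρ ε, ⟨ε, hε, rfl⟩, ?_⟩
    rintro _ ⟨w, hw, rfl⟩
    simpa using hw
  exact nhds_mono hle h1

/-- Homomorphisms to topological groups that are continuous on the generators are continuous. -/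
theorem continuous_lift' {H : Type*} [Group H] [TopologicalSpace H] [IsTopologicalGroup H]
    (f : X → H) (hf : Continuous f) : Continuous (FreeGroup.lift f) := by
  let t : GroupTopology (FreeGroup X) :=
    ⟨TopologicalSpace.induced (FreeGroup.lift f) inferInstance, topologicalGroup_induced _⟩
  have ht : @Continuous X (FreeGroup X) _ t.toTopologicalSpace FreeGroup.of := by
    refine continuous_induced_rng.2 ?_
    have : (FreeGroup.lift f : FreeGroup X → H) ∘ FreeGroup.of = f := by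
      ext x; simp
    rw [this]; exact hf
  have hle := FT_le t ht
  exact continuous_iff_le_induced.2 hle

/-! ### The affine group of a normed space -/

section Aff
set_option linter.unusedSectionVars false
variable (E : Type*) [NormedAddCommGroup E] [NormedSpace ℝ E]

/-- Homotheties and translations of `E`. -/
def Aff : Type _ := ℝˣ × E

instance : TopologicalSpace (Aff E) := inferInstanceAs (TopologicalSpace (ℝˣ × E))

variable {E}

instance : Mul (Aff E) := ⟨fun p q => ((p.1 * q.1, p.2 + (p.1 : ℝ) • q.2) : ℝˣ × E)⟩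
instance : One (Aff E) := ⟨((1, 0) : ℝˣ × E)⟩
instance : Inv (Aff E) := ⟨fun p => ((p.1⁻¹, -(((p.1⁻¹ : ℝˣ) : ℝ) • p.2)) : ℝˣ × E)⟩

theorem Aff.mul_fst (p q : Aff E) : (p * q).1 = p.1 * q.1 := rfl
theorem Aff.mul_snd (p q : Aff E) : (p * q).2 = p.2 + (p.1 : ℝ) • q.2 := rfl
theorem Aff.one_fst : (1 : Aff E).1 = 1 := rfl
theorem Aff.one_snd : (1 : Aff E).2 = 0 := rfl
theorem Aff.inv_fst (p : Aff E) : (p⁻¹).1 = p.1⁻¹ := rfl
theorem Aff.inv_snd (p : Aff E) : (p⁻¹).2 = -(((p.1⁻¹ : ℝˣ) : ℝ) • p.2) := rfl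
theorem Aff.ext' {p q : Aff E} (h1 : p.1 = q.1) (h2 : p.2 = q.2) : p = q := Prod.ext h1 h2

instance : Group (Aff E) :=
  Group.ofLeftAxioms
    (by
      intro a b c
      refine Aff.ext' ?_ ?_
      · simp only [Aff.mul_fst, mul_assoc]
      · simp only [Aff.mul_snd, Aff.mul_fst, Units.val_mul, smul_add, smul_smul, add_assoc])
    (by
      intro a
      refine Aff.ext' ?_ ?_
      · simp only [Aff.mul_fst, Aff.one_fst, one_mul]
      · simp only [Aff.mul_snd, Aff.one_snd, Aff.one_fst, Units.val_one, one_smul, zero_add])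
    (by
      intro a
      refine Aff.ext' ?_ ?_
      · simp only [Aff.mul_fst, Aff.one_fst, Aff.inv_fst, inv_mul_cancel]
      · simp only [Aff.mul_snd, Aff.one_snd, Aff.inv_snd, Aff.inv_fst, neg_add_cancel])

theorem Aff.continuous_fst' : Continuous (fun p : Aff E => p.1) :=
  (continuous_fst : Continuous (Prod.fst : ℝˣ × E → ℝˣ))
theorem Aff.continuous_snd' : Continuous (fun p : Aff E => p.2) :=
  (continuous_snd : Continuous (Prod.snd : ℝˣ × E → E))

instance : IsTopologicalGroup (Aff E) where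
  continuous_mul := by
    have h1 : Continuous fun p : Aff E × Aff E => p.1.1 := Aff.continuous_fst'.comp continuous_fst
    have h2 : Continuous fun p : Aff E × Aff E => p.2.1 := Aff.continuous_fst'.comp continuous_snd
    have h3 : Continuous fun p : Aff E × Aff E => p.1.2 := Aff.continuous_snd'.comp continuous_fst
    have h4 : Continuous fun p : Aff E × Aff E => p.2.2 := Aff.continuous_snd'.comp continuous_snd
    exact (h1.mul h2).prodMk (h3.add ((Units.continuous_val.comp h1).smul h4))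
  continuous_inv := by
    have h1 : Continuous fun p : Aff E => p.1 := Aff.continuous_fst'
    have h3 : Continuous fun p : Aff E => p.2 := Aff.continuous_snd'
    exact h1.inv.prodMk ((Units.continuous_val.comp h1.inv).smul h3).neg

/-- The affine map with linear part `t` and translation part `x`. -/
def Aff.mk' (t : ℝˣ) (x : E) : Aff E := ((t, x) : ℝˣ × E)

theorem Aff.mk'_fst (t : ℝˣ) (x : E) : (Aff.mk' t x).1 = t := rfl
theorem Aff.mk'_snd (t : ℝˣ) (x : E) : (Aff.mk' t x).2 = x := rfl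

theorem Aff.conj_calc (t : ℝˣ) (x : E) :
    Aff.mk' t (0 : E) * Aff.mk' 1 x * (Aff.mk' t (0 : E))⁻¹ = Aff.mk' 1 ((t : ℝ) • x) := by
  refine Aff.ext' ?_ ?_
  · simp only [Aff.mul_fst, Aff.inv_fst, Aff.mk'_fst]; simp
  · simp only [Aff.mul_fst, Aff.inv_fst, Aff.mul_snd, Aff.inv_snd, Aff.mk'_fst, Aff.mk'_snd]; simp

theorem Aff.trans_mul (x y : E) : Aff.mk' 1 x * Aff.mk' 1 y = Aff.mk' 1 (x + y) := by
  refine Aff.ext' ?_ ?_
  · simp only [Aff.mul_fst, Aff.mk'_fst]; simp
  · simp only [Aff.mul_fst, Aff.mul_snd, Aff.mk'_fst, Aff.mk'_snd]; simp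

theorem Aff.trans_inv (x : E) : (Aff.mk' 1 x)⁻¹ = Aff.mk' 1 (-x) := by
  refine Aff.ext' ?_ ?_
  · simp only [Aff.inv_fst, Aff.mk'_fst]; simp
  · simp only [Aff.inv_snd, Aff.mk'_fst, Aff.mk'_snd]; simp

theorem Aff.hom_inv (t : ℝˣ) : (Aff.mk' t (0 : E))⁻¹ = Aff.mk' t⁻¹ 0 := by
  refine Aff.ext' ?_ ?_
  · simp only [Aff.inv_fst, Aff.mk'_fst]
  · simp only [Aff.inv_snd, Aff.mk'_fst, Aff.mk'_snd]; simp

end Aff

end Pool.Agent.N490.FG
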